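import Pool.Agent.H85.RP.Lat
import Pool.Agent.H34.PT.Stab

/-!
# The lattice of the affine functions of a coordinate system
-/

set_option autoImplicit false

namespace Pool.Agent.H85.RP

open Matrix MvPolynomial Pool.Agent.K7.H10.PA
open Pool.Agent.H34.PT (Aff ap_C isAffine_iff)

section

variable {A K : Type} [CommRing A] [IsDomain A] [Field K] [Algebra A K] [IsFractionRing A K]

/-- the polynomials with coefficients in `A` -/
noncomputable abbrev io (A K : Type) [CommRing A] [Field K] [Algebra A K] :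
    MvPolynomial (Fin 2) A →+* MvPolynomial (Fin 2) K := MvPolynomial.map (algebraMap A K)

/-- the linear parts of the affine functions of the coordinates `g (X 0)`, `g (X 1)` whose
coefficients are in `A` -/
def lt (A : Type) {K : Type} [CommRing A] [Field K] [Algebra A K] (g : Aut2 K) :
    Submodule A (Fin 2 → K) where
  carrier := {c | ∃ d : K, ∃ p, io A K p = C (c 0) * g (X 0) + C (c 1) * g (X 1) + C d}
  zero_mem' := ⟨0, 0, by simp⟩
  add_mem' := by
    rintro a b ⟨d, p, hp⟩ ⟨e, q, hq⟩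
    refine ⟨d + e, p + q, ?_⟩
    rw [map_add, hp, hq, Pi.add_apply, Pi.add_apply, map_add, map_add, map_add]
    ring
  smul_mem' := by
    rintro r a ⟨d, p, hp⟩
    refine ⟨algebraMap A K r * d, C r * p, ?_⟩
    rw [map_mul, hp, MvPolynomial.map_C, Pi.smul_apply, Pi.smul_apply, Algebra.smul_def,
      Algebra.smul_def, map_mul, map_mul, map_mul]
    ring

omit [IsDomain A] [IsFractionRing A K] in
theorem mem_lt {g : Aut2 K} {c : Fin 2 → K} : c ∈ lt A g ↔
    ∃ d : K, ∃ p, io A K p = C (c 0) * g (X 0) + C (c 1) * g (X 1) + C d := Iff.rfl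

/-- common denominators -/
theorem exists_den (f : MvPolynomial (Fin 2) K) : ∃ d : A, d ≠ 0 ∧ ∃ p, io A K p =
    C (algebraMap A K d) * f := by
  induction f using MvPolynomial.induction_on with
  | C a =>
    obtain ⟨⟨x, ⟨y, hy⟩⟩, h⟩ := IsLocalization.mk'_surjective (nonZeroDivisors A) a
    refine ⟨y, nonZeroDivisors.ne_zero hy, C x, ?_⟩
    rw [MvPolynomial.map_C, ← map_mul, ← h]
    congr 1
    rw [mul_comm]
    exact (IsLocalization.mk'_spec K x ⟨y, hy⟩).symm
  | add p q hp hq =>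
    obtain ⟨d, hd, p', hp'⟩ := hp
    obtain ⟨e, he, q', hq'⟩ := hq
    refine ⟨d * e, mul_ne_zero hd he, C e * p' + C d * q', ?_⟩
    rw [map_add, map_mul, map_mul, hp', hq', MvPolynomial.map_C, MvPolynomial.map_C, map_mul,
      map_mul]
    ring
  | mul_X p i hp =>
    obtain ⟨d, hd, p', hp'⟩ := hp
    refine ⟨d, hd, p' * X i, ?_⟩
    rw [map_mul, hp', MvPolynomial.map_X]
    ring

theorem lt_span (g : Aut2 K) (c : Fin 2 → K) : ∃ d : A, d ≠ 0 ∧ d • c ∈ lt A g := by
  obtain ⟨d, hd, p, hp⟩ := exists_den (A := A) (C (c 0) * g (X 0) + C (c 1) * g (X 1))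
  refine ⟨d, hd, 0, p, ?_⟩
  rw [hp, map_zero, add_zero, Pi.smul_apply, Pi.smul_apply, Algebra.smul_def, Algebra.smul_def,
    map_mul, map_mul]
  ring

theorem lc_smul' (j : Fin 2) (a : K) (q : MvPolynomial (Fin 2) K) : lc j (C a * q) = a * lc j q :=
  lc_C_mul j a q

theorem lc_sum {ι : Type} (s : Finset ι) (j : Fin 2) (f : ι → MvPolynomial (Fin 2) K) :
    lc j (∑ i ∈ s, f i) = ∑ i ∈ s, lc j (f i) := by
  unfold lc
  exact coeff_sum _ _ _

omit [IsDomain A] [IsFractionRing A K] in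
theorem lt_fg [IsNoetherianRing A] (g : Aut2 K) : (lt A g).FG := by
  classical
  let s : Finset (Fin 2 →₀ ℕ) := (g (X 0)).support ∪ (g (X 1)).support ∪ {0}
  let w : (Fin 2 →₀ ℕ) → (Fin 2 → K) := fun m j => lc j (g⁻¹ (monomial m 1))
  have hle : lt A g ≤ Submodule.span A (w '' (s : Set (Fin 2 →₀ ℕ))) := by
    rintro c ⟨d, p, hp⟩
    have hsupp : ∀ m, m ∉ s → coeff m (io A K p) = 0 := by
      intro m hm
      have h1 : m ∉ (g (X 0)).support ∧ m ∉ (g (X 1)).support ∧ m ≠ 0 := by
        refine ⟨fun h => hm ?_, fun h => hm ?_, fun h => hm ?_⟩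
        · exact Finset.mem_union_left _ (Finset.mem_union_left _ h)
        · exact Finset.mem_union_left _ (Finset.mem_union_right _ h)
        · exact Finset.mem_union_right _ (Finset.mem_singleton.2 h)
      obtain ⟨h2, h3, h4⟩ := h1
      rw [notMem_support_iff] at h2 h3
      rw [hp, coeff_add, coeff_add, coeff_C_mul, coeff_C_mul, h2, h3, coeff_C, if_neg (Ne.symm h4)]
      ring
    have hsum : io A K p = ∑ m ∈ s, C (coeff m (io A K p)) * monomial m 1 := by
      ext m
      rw [coeff_sum]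
      simp only [coeff_C_mul, coeff_monomial]
      by_cases hm : m ∈ s
      · rw [Finset.sum_eq_single m]
        · simp
        · intro b _ hb
          rw [if_neg hb, mul_zero]
        · intro h
          exact absurd hm h
      · rw [hsupp m hm]
        symm
        refine Finset.sum_eq_zero fun b hb => ?_
        rw [if_neg (fun h : b = m => hm (h ▸ hb)), mul_zero]
    have hc : c = ∑ m ∈ s, coeff m p • w m := by
      funext j
      have h1 : lc j (g⁻¹ (io A K p)) = c j := by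
        have h2 : g⁻¹ (io A K p) = C (c 0) * X 0 + C (c 1) * X 1 + C d := by
          rw [hp, map_add, map_add, map_mul, map_mul, ap_C, ap_C, ap_C,
            Pool.Agent.H34.PT.inv_ap, Pool.Agent.H34.PT.inv_ap]
        rw [h2, lc_add, lc_add, lc_C_mul, lc_C_mul, lc_X, lc_X, lc_C]
        fin_cases j <;> simp
      rw [← h1]
      conv_lhs => rw [hsum, map_sum]
      rw [lc_sum, Finset.sum_apply]
      refine Finset.sum_congr rfl fun m _ => ?_
      rw [map_mul, ap_C, lc_C_mul, Pi.smul_apply, Algebra.smul_def, coeff_map]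
    rw [hc]
    exact Submodule.sum_mem _ fun m hm => Submodule.smul_mem _ _
      (Submodule.subset_span ⟨m, Finset.mem_coe.2 hm, rfl⟩)
  have hN : IsNoetherian A (Submodule.span A (w '' (s : Set (Fin 2 →₀ ℕ)))) :=
    isNoetherian_span_of_finite A (s.finite_toSet.image w)
  exact isNoetherian_submodule.1 hN _ hle

omit [IsDomain A] [IsFractionRing A K] in
/-- the action on affine functions -/
theorem lt_smul {g : Aut2 K} {s : Aut2 A} {b : Fin 2 → K}
    {m : Matrix (Fin 2) (Fin 2) K}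
    (h : ∀ i, (g⁻¹ * bc (algebraMap A K) s * g) (X i) = ∑ j, C (m j i) * X j + C (b i))
    (c : Fin 2 → K) (d : K) (p : MvPolynomial (Fin 2) A)
    (hp : io A K p = C (c 0) * g (X 0) + C (c 1) * g (X 1) + C d) :
    io A K (s p) = C ((m *ᵥ c) 0) * g (X 0) + C ((m *ᵥ c) 1) * g (X 1) +
      C (c 0 * b 0 + c 1 * b 1 + d) := by
  have h1 : ∀ i, bc (algebraMap A K) s (g (X i)) = ∑ j, C (m j i) * g (X j) + C (b i) := by
    intro i
    have h2 : bc (algebraMap A K) s (g (X i)) =
        g ((g⁻¹ * bc (algebraMap A K) s * g) (X i)) := by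
      rw [AlgEquiv.mul_apply, AlgEquiv.mul_apply, Pool.Agent.H34.PT.ap_inv]
    rw [h2, h i, map_add, map_sum, ap_C]
    congr 1
    refine Finset.sum_congr rfl fun j _ => ?_
    rw [map_mul, ap_C]
  have h3 : io A K (s p) = bc (algebraMap A K) s (io A K p) := (bcH_map (algebraMap A K) s p).symm
  rw [h3, hp, map_add, map_add, map_mul, map_mul, ap_C, ap_C, ap_C, h1, h1]
  simp only [Fin.sum_univ_two, Matrix.mulVec, dotProduct, map_add, map_mul]
  ring

omit [IsDomain A] [IsFractionRing A K] in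
theorem lt_pres {g : Aut2 K} {s : Aut2 A} {b : Fin 2 → K} {m : Matrix (Fin 2) (Fin 2) K}
    (h : ∀ i, (g⁻¹ * bc (algebraMap A K) s * g) (X i) = ∑ j, C (m j i) * X j + C (b i))
    {c : Fin 2 → K} (hc : c ∈ lt A g) : m *ᵥ c ∈ lt A g := by
  obtain ⟨d, p, hp⟩ := hc
  exact ⟨_, s p, lt_smul h c d p hp⟩

omit [IsDomain A] in
/-- automorphisms which are the identity modulo `x` -/
theorem lt_mod {g : Aut2 K} {s : Aut2 A} {b : Fin 2 → K} {m : Matrix (Fin 2) (Fin 2) K}
    (h : ∀ i, (g⁻¹ * bc (algebraMap A K) s * g) (X i) = ∑ j, C (m j i) * X j + C (b i))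
    {x : A} (hx : x ≠ 0) (hs : ∀ p, ∃ q, s p - p = C x * q) {c : Fin 2 → K} (hc : c ∈ lt A g) :
    ∃ c' ∈ lt A g, m *ᵥ c - c = x • c' := by
  obtain ⟨d, p, hp⟩ := hc
  have h1 := lt_smul h c d p hp
  obtain ⟨q, hq⟩ := hs p
  have hx' : algebraMap A K x ≠ 0 := by
    rw [map_ne_zero_iff _ (IsFractionRing.injective A K)]
    exact hx
  have h2 : C (algebraMap A K x) * io A K q =
      C ((m *ᵥ c) 0 - c 0) * g (X 0) + C ((m *ᵥ c) 1 - c 1) * g (X 1) +
      C (c 0 * b 0 + c 1 * b 1) := by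
    have h3 : io A K (s p) - io A K p = C (algebraMap A K x) * io A K q := by
      rw [← map_sub, hq, map_mul, MvPolynomial.map_C]
    rw [← h3, h1, hp, map_sub, map_sub, map_add, map_add]
    ring
  refine ⟨(algebraMap A K x)⁻¹ • (m *ᵥ c - c),
    ⟨(algebraMap A K x)⁻¹ * (c 0 * b 0 + c 1 * b 1), q, ?_⟩, ?_⟩
  · have h4 : io A K q = C (algebraMap A K x)⁻¹ * (C (algebraMap A K x) * io A K q) := by
      rw [← mul_assoc, ← map_mul, inv_mul_cancel₀ hx', map_one, one_mul]
    rw [h4, h2, Pi.smul_apply, Pi.smul_apply, smul_eq_mul, smul_eq_mul, Pi.sub_apply, Pi.sub_apply,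
      map_mul, map_mul, map_mul]
    ring
  · rw [← algebraMap_smul K x, smul_smul, mul_inv_cancel₀ hx', one_smul]

end

end Pool.Agent.H85.RP
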