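import Pool.Agent.H85.RP.Step

/-!
# The criterion for noetherian domains
-/

set_option autoImplicit false

namespace Pool.Agent.H85.RP

open Matrix MvPolynomial Pool.Agent.K7.H10.PA
open Pool.Agent.Y110.FJ (ClosedE)
open Pool.Agent.R684.FP (FbC)
open Pool.Agent.H34.PT

variable {C : ∀ (G : Type) [Group G], Prop}

/-- the group of the matrices which map the lattice onto itself -/
def LS {A K : Type} [CommRing A] [Field K] [Algebra A K] (M : Submodule A (Fin 2 → K)) :
    Subgroup (GL (Fin 2) K) where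
  carrier := {g | ∀ c, g.val *ᵥ c ∈ M ↔ c ∈ M}
  one_mem' := fun c => by rw [Units.val_one, Matrix.one_mulVec]
  mul_mem' := by
    intro g h hg hh c
    rw [Units.val_mul, ← Matrix.mulVec_mulVec, hg, hh]
  inv_mem' := by
    intro g hg c
    rw [← hg, Matrix.mulVec_mulVec, ← Units.val_mul, mul_inv_cancel, Units.val_one,
      Matrix.one_mulVec]

/-- a lattice: finitely generated, and it spans the plane -/
def IsLat {A K : Type} [CommRing A] [Field K] [Algebra A K] (M : Submodule A (Fin 2 → K)) : Prop :=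
  M.FG ∧ ∀ c : Fin 2 → K, ∃ d : A, d ≠ 0 ∧ d • c ∈ M

section

variable {A K : Type} [CommRing A] [IsDomain A] [IsNoetherianRing A] [Field K] [Algebra A K]
  [IsFractionRing A K]

/-- the stabilizers of affine type over a noetherian domain -/
theorem aff_noeth (hC : ClosedE C) (hS : ∀ (S : Type) [Group S], Group.IsSolvable S → C S)
    (hM : ∀ M : Submodule A (Fin 2 → K), IsLat M → C (LS M))
    {S : Type} [Group S] (a : S →* Aut2 A) (ha : Function.Injective a) (g : Aut2 K)
    (hg : ∀ s, g⁻¹ * bc (algebraMap A K) (a s) * g ∈ Aff K) : C S := by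
  have hmul : ∀ s t, g⁻¹ * bc (algebraMap A K) (a (s * t)) * g =
      (g⁻¹ * bc (algebraMap A K) (a s) * g) * (g⁻¹ * bc (algebraMap A K) (a t) * g) := by
    intro s t
    rw [map_mul, map_mul]
    group
  obtain ⟨af, haf⟩ : ∃ af : S →* Aff K,
      ∀ s, (af s : Aut2 K) = g⁻¹ * bc (algebraMap A K) (a s) * g :=
    ⟨MonoidHom.mk' (fun s => ⟨g⁻¹ * bc (algebraMap A K) (a s) * g, hg s⟩)
      (fun s t => Subtype.ext (hmul s t)), fun s => rfl⟩
  obtain ⟨m, hmdef⟩ : ∃ m : S →* GL (Fin 2) K, m = (lpart K).comp af := ⟨_, rfl⟩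
  have hm : ∀ s, ∃ b : Fin 2 → K, ∀ k, (g⁻¹ * bc (algebraMap A K) (a s) * g) (X k) =
      ∑ j, MvPolynomial.C ((m s).val j k) * X j + MvPolynomial.C (b k) := by
    intro s
    obtain ⟨u, b, hub⟩ := hg s
    refine ⟨b, fun k => ?_⟩
    have h1 : (m s).val = u.val := by
      have h2 : (m s).val = LM (af s : Aut2 K) := by rw [hmdef]; rfl
      rw [h2, haf, LM_of hub]
    rw [hub, h1]
  have hpres : ∀ s, ∀ c ∈ lt A g, (m s).val *ᵥ c ∈ lt A g := by
    intro s c hc
    obtain ⟨b, hb⟩ := hm s
    exact lt_pres hb hc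
  have hle : m.range ≤ LS (lt A g) := by
    rintro _ ⟨s, rfl⟩ c
    refine ⟨fun h => ?_, hpres s c⟩
    have h1 := hpres s⁻¹ _ h
    rwa [Matrix.mulVec_mulVec, ← Units.val_mul, ← map_mul, inv_mul_cancel, map_one,
      Units.val_one, Matrix.one_mulVec] at h1
  have hR : C m.range := hC.base.of_injective _ _ (Subgroup.inclusion hle)
    (Subgroup.inclusion_injective hle) (hM _ ⟨lt_fg g, lt_span g⟩)
  refine abelian_ext hC hS m.rangeRestrict m.rangeRestrict_surjective hR ?_
  have key : ∀ s, m.rangeRestrict s = 1 → ∃ b, g⁻¹ * bc (algebraMap A K) (a s) * g = tr b := by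
    intro s hs
    have h2 : m s = 1 := congrArg Subtype.val hs
    rw [hmdef] at h2
    obtain ⟨b, hb⟩ := lpart_ker h2
    exact ⟨b, by rw [← haf, hb]⟩
  intro s t hs ht
  obtain ⟨b, hb⟩ := key s hs
  obtain ⟨b', hb'⟩ := key t ht
  apply ha
  apply bc_injective (IsFractionRing.injective A K)
  have h1 : g⁻¹ * bc (algebraMap A K) (a (s * t)) * g = g⁻¹ * bc (algebraMap A K) (a (t * s)) * g := by
    rw [hmul, hmul, hb, hb', tr_mul, tr_mul, add_comm]
  exact mul_left_cancel (mul_right_cancel h1)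

/-- **the criterion** -/
theorem crit [CharZero A] (hC : ClosedE C) (hA : AcylClosed C)
    (hS : ∀ (S : Type) [Group S], Group.IsSolvable S → C S)
    (hM : ∀ M : Submodule A (Fin 2 → K), IsLat M → C (LS M)) : C (Aut2 A) := by
  have hi : Function.Injective (algebraMap A K) := IsFractionRing.injective A K
  have hz : CharZero K := (RingHom.charZero_iff hi).1 inferInstance
  refine plane_sub hC hA hS (bc (algebraMap A K)) (bc_injective hi) ?_
  intro S g hSg
  exact aff_noeth hC hS hM S.subtype S.subtype_injective g (fun s => hSg s s.2)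

end

/-- `GL₂` is a subgroup -/
theorem gl_of_aut {A : Type} [CommRing A] (hC : ClosedE C) (h : C (Aut2 A)) :
    C (GL (Fin 2) A) := by
  refine hC.base.of_injective _ _ (la : GL (Fin 2) A →* Aut2 A) ?_ h
  intro g k hgk
  have h2 : (⟨la g, la_mem g⟩ : St A) = ⟨la k, la_mem k⟩ := Subtype.ext hgk
  have h3 := congrArg (fun φ : St A => lin A φ) h2
  exact (lin_la g).symm.trans (h3.trans (lin_la k))

/-- the stabilizer of a free lattice -/
theorem LS_pid {A K : Type} [CommRing A] [IsDomain A] [IsPrincipalIdealRing A] [Field K]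
    [Algebra A K] [IsFractionRing A K] (hC : ClosedE C) (h : C (GL (Fin 2) A))
    (M : Submodule A (Fin 2 → K)) (hM : IsLat M) : C (LS M) := by
  obtain ⟨P, hP⟩ := lattice M hM.1 hM.2
  obtain ⟨α, hα⟩ := descend hP (LS M).subtype (fun g c hc => (g.2 c).2 hc)
  refine hC.base.of_injective _ _ α ?_ h
  rw [injective_iff_map_eq_one]
  intro g hg
  have h5 : P⁻¹ * (LS M).subtype g * P = 1 := by rw [← hα, hg, map_one]
  have h6 : (LS M).subtype g = P * (P⁻¹ * (LS M).subtype g * P) * P⁻¹ := by group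
  rw [h5, mul_one, mul_inv_cancel] at h6
  exact Subtype.ext h6

/-- **principal ideal domains** -/
theorem pid {A : Type} [CommRing A] [IsDomain A] [IsPrincipalIdealRing A] [CharZero A]
    (hC : ClosedE C) (hA : AcylClosed C) (hS : ∀ (S : Type) [Group S], Group.IsSolvable S → C S)
    (h : C (GL (Fin 2) A)) : C (Aut2 A) :=
  crit (K := FractionRing A) hC hA hS fun M hM => LS_pid hC h M hM

end Pool.Agent.H85.RP
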