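import Pool.Agent.H85.RP.Gen

/-!
# Automorphisms of affine space which preserve all coordinates but two
-/

set_option autoImplicit false

namespace Pool.Agent.H85.RP

open Matrix MvPolynomial Pool.Agent.K7.H10.PA
open Pool.Agent.Y110.FJ (ClosedE)

variable {C : ∀ (G : Type) [Group G], Prop}

/-- the automorphisms of the `A`-algebra `A[x, y, z_s : s ∈ σ]` which fix all the variables `z_s` -/
def FixV (A σ : Type) [CommRing A] :
    Subgroup (MvPolynomial (Fin 2 ⊕ σ) A ≃ₐ[A] MvPolynomial (Fin 2 ⊕ σ) A) where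
  carrier := {φ | ∀ s : σ, φ (X (Sum.inr s)) = X (Sum.inr s)}
  one_mem' := fun s => rfl
  mul_mem' := by
    intro φ ψ h1 h2 s
    rw [AlgEquiv.mul_apply, h2, h1]
  inv_mem' := by
    intro φ h s
    conv_lhs => rw [← h s]
    exact φ.symm_apply_apply _

section

variable {A σ : Type} [CommRing A]

/-- the identification of the polynomial rings -/
noncomputable abbrev se (A σ : Type) [CommRing A] :
    MvPolynomial (Fin 2 ⊕ σ) A ≃ₐ[A] MvPolynomial (Fin 2) (MvPolynomial σ A) :=
  sumAlgEquiv A (Fin 2) σ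

theorem se_inr (s : σ) : se A σ (X (Sum.inr s)) = MvPolynomial.C (X s) :=
  sumAlgEquiv_X_inr _ _ _ s

theorem fix_C (φ : FixV A σ) (p : MvPolynomial σ A) :
    se A σ (φ.1 ((se A σ).symm (MvPolynomial.C p))) = MvPolynomial.C p := by
  induction p using MvPolynomial.induction_on with
  | C a =>
    have h1 : (MvPolynomial.C (MvPolynomial.C a) : MvPolynomial (Fin 2) (MvPolynomial σ A)) =
        algebraMap A _ a := rfl
    rw [h1, AlgEquiv.commutes, AlgEquiv.commutes, AlgEquiv.commutes]
  | add p q hp hq => rw [map_add, map_add, map_add, map_add, hp, hq]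
  | mul_X p s hp =>
    rw [map_mul, map_mul, map_mul, map_mul, hp]
    congr 1
    rw [← se_inr, AlgEquiv.symm_apply_apply, φ.2 s]

/-- the automorphisms which fix the variables are the automorphisms over the polynomial ring -/
noncomputable def toAut2 (A σ : Type) [CommRing A] : FixV A σ →* Aut2 (MvPolynomial σ A) :=
  MonoidHom.mk' (fun φ => AlgEquiv.ofRingEquiv
    (f := ((se A σ).symm.trans (φ.1.trans (se A σ))).toRingEquiv) (fun p => fix_C φ p))
    (fun φ ψ => by
      apply AlgEquiv.ext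
      intro p
      show se A σ (φ.1 (ψ.1 ((se A σ).symm p))) =
        se A σ (φ.1 ((se A σ).symm (se A σ (ψ.1 ((se A σ).symm p)))))
      rw [AlgEquiv.symm_apply_apply])

theorem toAut2_inj : Function.Injective (toAut2 A σ) := by
  intro φ ψ h
  apply Subtype.ext
  apply AlgEquiv.ext
  intro p
  have h1 : se A σ (φ.1 ((se A σ).symm (se A σ p))) = se A σ (ψ.1 ((se A σ).symm (se A σ p))) :=
    DFunLike.congr_fun (F := Aut2 (MvPolynomial σ A)) h (se A σ p)
  rw [AlgEquiv.symm_apply_apply] at h1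
  exact (se A σ).injective h1

theorem toAut2_surj : Function.Surjective (toAut2 A σ) := by
  intro g
  let ψ : MvPolynomial (Fin 2 ⊕ σ) A ≃ₐ[A] MvPolynomial (Fin 2 ⊕ σ) A :=
    (se A σ).trans ((g.restrictScalars A).trans (se A σ).symm)
  have h1 : ∀ p, ψ p = (se A σ).symm (g (se A σ p)) := fun p => rfl
  refine ⟨⟨ψ, fun s => ?_⟩, ?_⟩
  · rw [h1, se_inr]
    have h2 : g (MvPolynomial.C (X s)) = MvPolynomial.C (X s) := g.commutes (X s)
    rw [h2, ← se_inr, AlgEquiv.symm_apply_apply]
  · apply AlgEquiv.ext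
    intro p
    show se A σ (ψ ((se A σ).symm p)) = g p
    rw [h1, AlgEquiv.apply_symm_apply, AlgEquiv.apply_symm_apply]

theorem fixV_iff (hC : ClosedE C) : C (FixV A σ) ↔ C (Aut2 (MvPolynomial σ A)) := by
  let e : FixV A σ ≃* Aut2 (MvPolynomial σ A) :=
    MulEquiv.ofBijective (toAut2 A σ) ⟨toAut2_inj, toAut2_surj⟩
  exact ⟨hC.base.of_injective _ _ e.symm.toMonoidHom e.symm.injective,
    hC.base.of_injective _ _ e.toMonoidHom e.injective⟩

end

end Pool.Agent.H85.RP
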