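import Pool.Agent.H85.RP.Crit
import Pool.Agent.H86.FJP.Ring

/-!
# Polynomial rings in any number of variables, and rings with zero divisors
-/

set_option autoImplicit false

namespace Pool.Agent.H85.RP

open Matrix MvPolynomial Pool.Agent.K7.H10.PA
open Pool.Agent.Y110.FJ (ClosedE)
open Pool.Agent.R684.FP (FbC)
open Pool.Agent.H34.PT (AcylClosed)

variable {C : ∀ (G : Type) [Group G], Prop}

/-- subrings -/
theorem of_inj (hC : ClosedE C) {A B : Type} [CommRing A] [CommRing B] (f : B →+* A)
    (hf : Function.Injective f) (h : C (Aut2 A)) : C (Aut2 B) :=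
  hC.base.of_injective _ _ (bc f) (bc_injective hf) h

section

variable (hC : ClosedE C) (hA : AcylClosed C) (hFb : FbC C)
  (hS : ∀ (S : Type) [Group S], Group.IsSolvable S → C S)

include hC hA hFb hS

/-- finitely many variables -/
theorem fin_vars {D : Type} [CommRing D] [IsDomain D] [CharZero D] (hD : C (Aut2 D)) (n : ℕ) :
    C (Aut2 (MvPolynomial (Fin n) D)) := by
  induction n with
  | zero =>
    exact of_inj hC (MvPolynomial.isEmptyRingEquiv D (Fin 0)).toRingHom
      (MvPolynomial.isEmptyRingEquiv D (Fin 0)).injective hD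
  | succ n ih =>
    have hz : CharZero (MvPolynomial (Fin n) D) := inferInstance
    exact of_inj hC (MvPolynomial.finSuccEquiv D n).toRingEquiv.toRingHom
      (MvPolynomial.finSuccEquiv D n).injective (step hC hA hFb hS ih)

omit hC hA hFb hS in
/-- automorphisms defined over a subring -/
theorem range_le {A B : Type} [CommRing A] [CommRing B] (f : B →+* A)
    (hf : Function.Injective f) {S : Subring A} (h : S ≤ f.range) :
    (bc S.subtype).range ≤ (bc f).range := by
  have h1 : ∀ s : S, ∃ b : B, f b = s := fun s => h s.2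
  choose b hb using h1
  let k : S →+* B :=
    { toFun := b
      map_one' := hf (by rw [hb, map_one]; rfl)
      map_mul' := fun s t => hf (by rw [hb, map_mul, hb, hb]; rfl)
      map_zero' := hf (by rw [hb, map_zero]; rfl)
      map_add' := fun s t => hf (by rw [hb, map_add, hb, hb]; rfl) }
  rintro _ ⟨g, rfl⟩
  refine ⟨bc k g, ?_⟩
  rw [bc_bc]
  congr 1
  congr 1
  exact RingHom.ext fun s => hb s

/-- any number of variables -/
theorem vars {D : Type} [CommRing D] [IsDomain D] [CharZero D] (hD : C (Aut2 D)) (σ : Type) :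
    C (Aut2 (MvPolynomial σ D)) := by
  classical
  let f : ∀ s : Finset σ, MvPolynomial s D →+* MvPolynomial σ D :=
    fun s => (MvPolynomial.rename (R := D) (Subtype.val : s → σ)).toRingHom
  have hf : ∀ s, Function.Injective (f s) := fun s =>
    MvPolynomial.rename_injective _ Subtype.val_injective
  have hmono : ∀ s t : Finset σ, s ≤ t → (f s).range ≤ (f t).range := by
    rintro s t hst _ ⟨p, rfl⟩
    refine ⟨MvPolynomial.rename (fun x : s => (⟨x.1, hst x.2⟩ : t)) p, ?_⟩
    show MvPolynomial.rename _ (MvPolynomial.rename _ p) = MvPolynomial.rename _ p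
    rw [MvPolynomial.rename_rename]
    rfl
  refine Pool.Agent.Y430.SS.of_directed hC.base _ (Finset σ)
    (fun i j => ⟨i ∪ j, Finset.subset_union_left, Finset.subset_union_right⟩)
    (fun s => (bc (f s)).range) ?_ ?_ ?_
  · rintro s t hst _ ⟨g, rfl⟩
    refine ⟨bc (MvPolynomial.rename (R := D) (fun x : s => (⟨x.1, hst x.2⟩ : t))).toRingHom g, ?_⟩
    rw [bc_bc]
    congr 1
    congr 1
    apply RingHom.ext
    intro p
    show MvPolynomial.rename _ (MvPolynomial.rename _ p) = MvPolynomial.rename _ p
    rw [MvPolynomial.rename_rename]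
    rfl
  · intro φ
    obtain ⟨t, ht⟩ := Pool.Agent.H86.BCP.exists_sub φ
    have h1 : ∃ s : Finset σ, Subring.closure (t : Set (MvPolynomial σ D)) ≤ (f s).range := by
      refine ⟨t.biUnion fun p => p.vars, ?_⟩
      rw [Subring.closure_le]
      intro p hp
      have h2 : (p.vars : Set σ) ⊆ Set.range
          (Subtype.val : ↥(t.biUnion fun p => p.vars) → σ) := by
        intro x hx
        exact ⟨⟨x, Finset.mem_biUnion.2 ⟨p, Finset.mem_coe.1 hp, hx⟩⟩, rfl⟩
      obtain ⟨q, hq⟩ := MvPolynomial.exists_rename_eq_of_vars_subset_range p _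
        Subtype.val_injective h2
      exact ⟨q, hq⟩
    obtain ⟨s, hs⟩ := h1
    exact ⟨s, range_le (f s) (hf s) hs ht⟩
  · intro s
    have h1 : C (Aut2 (MvPolynomial s D)) :=
      of_inj hC (MvPolynomial.renameEquiv D (Fintype.equivFin s)).toRingEquiv.toRingHom
        (MvPolynomial.renameEquiv D (Fintype.equivFin s)).injective
        (fin_vars hC hA hFb hS hD _)
    exact hC.base.of_injective _ _
      (MonoidHom.ofInjective (bc_injective (hf s))).symm.toMonoidHom
      (MonoidHom.ofInjective (bc_injective (hf s))).symm.injective h1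

end

/-- every minimal prime ideal of `A` is the kernel of a homomorphism to a domain of characteristic zero
over which the group of the automorphisms of the plane is in the class -/
def GoodD (C : ∀ (G : Type) [Group G], Prop) (A : Type) [CommRing A] : Prop :=
  ∀ Q ∈ minimalPrimes A, ∃ (D : Type) (_ : CommRing D) (_ : IsDomain D) (_ : CharZero D)
    (f : A →+* D), RingHom.ker f = Q ∧ C (Aut2 D)

/-- polynomial rings -/
theorem GoodD.poly (hC : ClosedE C) (hA : AcylClosed C) (hFb : FbC C)
    (hS : ∀ (S : Type) [Group S], Group.IsSolvable S → C S) {A : Type} [CommRing A]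
    (h : GoodD C A) (σ : Type) : GoodD C (MvPolynomial σ A) := by
  intro Q hQ
  have hQp : Q.IsPrime := hQ.1.1
  obtain ⟨Q₀, hQ₀, hle⟩ := Ideal.exists_minimalPrimes_le (I := (⊥ : Ideal A))
    (J := Q.comap MvPolynomial.C) bot_le
  obtain ⟨D, _, _, _, f, hf, hD⟩ := h Q₀ hQ₀
  refine ⟨MvPolynomial σ D, inferInstance, inferInstance, inferInstance, MvPolynomial.map f, ?_,
    vars hC hA hFb hS hD σ⟩
  have hle' : RingHom.ker (MvPolynomial.map (σ := σ) f) ≤ Q := by
    intro p hp
    rw [p.as_sum]
    refine Q.sum_mem fun m _ => ?_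
    rw [← mul_one (coeff m p), ← MvPolynomial.C_mul_monomial]
    refine Q.mul_mem_right _ ?_
    have h1 : f (coeff m p) = 0 := by
      rw [← coeff_map]
      have h2 : MvPolynomial.map f p = 0 := hp
      rw [h2, coeff_zero]
    have h2 : coeff m p ∈ Q₀ := by
      rw [← hf]
      exact h1
    exact hle h2
  exact le_antisymm hle' (hQ.2 ⟨RingHom.ker_isPrime _, bot_le⟩ hle')

/-- rings -/
theorem GoodD.aut (hC : ClosedE C) (hS : ∀ (S : Type) [Group S], Group.IsSolvable S → C S)
    {A : Type} [CommRing A] (h : GoodD C A) : C (Aut2 A) := by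
  classical
  refine Pool.Agent.Y430.SS.of_directed hC.base (Aut2 A) (Finset A)
    (fun i j => ⟨i ∪ j, Finset.subset_union_left, Finset.subset_union_right⟩)
    (fun s => (bc (Subring.closure (s : Set A)).subtype).range)
    (fun s t h => Pool.Agent.H86.BCP.range_mono (Subring.closure_mono (by exact_mod_cast h)))
    Pool.Agent.H86.BCP.exists_sub ?_
  intro s
  obtain ⟨S, hS'⟩ : ∃ S : Subring A, S = Subring.closure (s : Set A) := ⟨_, rfl⟩
  have : IsNoetherianRing S := by
    rw [hS']
    exact is_noetherian_subring_closure (s : Set A) s.finite_toSet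
  rw [← hS']
  have hi : Function.Injective (bc S.subtype) := bc_injective S.subtype_injective
  refine hC.base.of_injective _ _ (MonoidHom.ofInjective hi).symm.toMonoidHom
    (MonoidHom.ofInjective hi).symm.injective ?_
  refine Pool.Agent.H86.FJP.noeth hC hS (MonoidHom.id _) (fun _ _ h => h) ?_
  intro P hP
  obtain ⟨Q, hQ, hQP⟩ := Pool.Agent.H86.FJP.exists_min S P hP
  obtain ⟨D, _, _, _, f, hf, hD⟩ := h Q hQ
  have hi' : Function.Injective (algebraMap D (FractionRing D)) := IsFractionRing.injective D _
  refine ⟨FractionRing D, inferInstance, (algebraMap D (FractionRing D)).comp (f.comp S.subtype),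
    ?_, (bc (algebraMap D (FractionRing D))).range, ?_, fun g => ?_⟩
  · rw [← hQP]
    ext x
    have h8 : S.subtype x ∈ RingHom.ker f ↔ S.subtype x ∈ Q := by rw [hf]
    rw [RingHom.mem_ker]
    show algebraMap D (FractionRing D) (f (S.subtype x)) = 0 ↔ _
    rw [map_eq_zero_iff _ hi']
    exact h8
  · exact hC.base.of_injective _ _ (MonoidHom.ofInjective (bc_injective hi')).symm.toMonoidHom
      (MonoidHom.ofInjective (bc_injective hi')).symm.injective hD
  · exact ⟨bc (f.comp S.subtype) g, by rw [bc_bc]; rfl⟩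

end Pool.Agent.H85.RP
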