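import Pool.Graph.R_pool_sql_team_seeded_35f281b4.K7.H10.PA.Org

/-!
# Lattices over principal ideal domains and groups of matrices which preserve them
-/

set_option autoImplicit false

namespace Pool.Agent.H85.RP

open Matrix

section lat

variable {A K : Type} [CommRing A] [IsDomain A] [Field K] [Algebra A K] [IsFractionRing A K]

/-- lattices over a principal ideal domain are free -/
theorem lattice [IsPrincipalIdealRing A] (M : Submodule A (Fin 2 → K)) (hfg : M.FG)
    (hsp : ∀ c : Fin 2 → K, ∃ d : A, d ≠ 0 ∧ d • c ∈ M) :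
    ∃ P : GL (Fin 2) K, ∀ c, c ∈ M ↔
      ∃ a : Fin 2 → A, c = P.val *ᵥ (fun i => algebraMap A K (a i)) := by
  have h1 : Module.Finite A M := Module.Finite.iff_fg.2 hfg
  have h2 : Module.IsTorsionFree A K := inferInstance
  have h3 : Module.Free A M := inferInstance
  let b := Module.Free.chooseBasis A M
  have li : LinearIndependent A (fun i => (b i : Fin 2 → K)) :=
    b.linearIndependent.map' M.subtype (Submodule.ker_subtype M)
  have liK : LinearIndependent K (fun i => (b i : Fin 2 → K)) :=
    (LinearIndependent.iff_fractionRing A K).1 li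
  have hrep : ∀ c ∈ M, ∃ a : Module.Free.ChooseBasisIndex A M → A,
      c = ∑ i, a i • (b i : Fin 2 → K) := by
    intro c hc
    refine ⟨fun i => b.repr ⟨c, hc⟩ i, ?_⟩
    have h4 := b.sum_repr ⟨c, hc⟩
    have h5 := congrArg Subtype.val h4
    rw [Submodule.coe_sum] at h5
    exact h5.symm
  have hspan : ⊤ ≤ Submodule.span K (Set.range fun i => (b i : Fin 2 → K)) := by
    rintro c -
    obtain ⟨d, hd, hdc⟩ := hsp c
    obtain ⟨a, ha⟩ := hrep _ hdc
    have hd' : algebraMap A K d ≠ 0 := by
      rw [map_ne_zero_iff _ (IsFractionRing.injective A K)]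
      exact hd
    have h4 : c = (algebraMap A K d)⁻¹ • (d • c) := by
      rw [← algebraMap_smul K d c, smul_smul, inv_mul_cancel₀ hd', one_smul]
    rw [h4, ha]
    refine Submodule.smul_mem _ _ (Submodule.sum_mem _ fun i _ => ?_)
    rw [← algebraMap_smul K (a i)]
    exact Submodule.smul_mem _ _ (Submodule.subset_span ⟨i, rfl⟩)
  let bK : Module.Basis (Module.Free.ChooseBasisIndex A M) K (Fin 2 → K) :=
    Module.Basis.mk liK hspan
  have hbK : ∀ i, bK i = (b i : Fin 2 → K) := fun i => Module.Basis.mk_apply liK hspan i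
  have hcard : Fintype.card (Module.Free.ChooseBasisIndex A M) = Fintype.card (Fin 2) := by
    rw [← Module.finrank_eq_card_basis bK, Module.finrank_fin_fun, Fintype.card_fin]
  let e : Module.Free.ChooseBasisIndex A M ≃ Fin 2 := Fintype.equivOfCardEq hcard
  let bK' := bK.reindex e
  have hbK' : ∀ j, bK' j = (b (e.symm j) : Fin 2 → K) := fun j => by
    rw [Module.Basis.reindex_apply, hbK]
  have : Invertible ((Pi.basisFun K (Fin 2)).toMatrix bK') :=
    (Pi.basisFun K (Fin 2)).invertibleToMatrix bK'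
  refine ⟨unitOfInvertible ((Pi.basisFun K (Fin 2)).toMatrix bK'), fun c => ?_⟩
  have key : ∀ a : Fin 2 → A, ((unitOfInvertible ((Pi.basisFun K (Fin 2)).toMatrix bK') :
      GL (Fin 2) K) : Matrix (Fin 2) (Fin 2) K) *ᵥ (fun i => algebraMap A K (a i)) =
      ∑ j, a j • (b (e.symm j) : Fin 2 → K) := by
    intro a
    funext i
    rw [Finset.sum_apply, val_unitOfInvertible, Matrix.mulVec, dotProduct]
    refine Finset.sum_congr rfl fun j _ => ?_
    rw [Module.Basis.toMatrix_apply, Pi.basisFun_repr, hbK', Pi.smul_apply, Algebra.smul_def,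
      mul_comm]
  constructor
  · intro hc
    obtain ⟨a, ha⟩ := hrep c hc
    refine ⟨fun j => a (e.symm j), ?_⟩
    rw [key, ha]
    exact (Equiv.sum_comp e.symm fun i => a i • (b i : Fin 2 → K)).symm
  · rintro ⟨a, rfl⟩
    rw [key]
    exact Submodule.sum_mem _ fun j _ => M.smul_mem _ (b (e.symm j)).2

omit [IsDomain A] in
/-- groups of matrices which preserve a free lattice -/
theorem descend {M : Submodule A (Fin 2 → K)} {P : GL (Fin 2) K}
    (hP : ∀ c, c ∈ M ↔ ∃ a : Fin 2 → A, c = P.val *ᵥ (fun i => algebraMap A K (a i)))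
    {G : Type} [Group G] (m : G →* GL (Fin 2) K) (hm : ∀ g, ∀ c ∈ M, (m g).val *ᵥ c ∈ M) :
    ∃ α : G →* GL (Fin 2) A, ∀ g,
      GeneralLinearGroup.map (algebraMap A K) (α g) = P⁻¹ * m g * P := by
  have hinj : Function.Injective (algebraMap A K) := IsFractionRing.injective A K
  have hPP : P⁻¹.val * P.val = 1 := by rw [← Units.val_mul, inv_mul_cancel, Units.val_one]
  have h1 : ∀ g j, ∃ a : Fin 2 → A, ∀ i, (P⁻¹ * m g * P).val i j = algebraMap A K (a i) := by
    intro g j
    have h2 : P.val *ᵥ (Pi.single j 1) ∈ M := (hP _).2 ⟨Pi.single j 1, by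
      congr 1
      funext i
      by_cases hij : i = j
      · subst hij; simp
      · simp [Pi.single_eq_of_ne hij]⟩
    obtain ⟨a, ha⟩ := (hP _).1 (hm g _ h2)
    refine ⟨a, fun i => ?_⟩
    have h3 : (P⁻¹ * m g * P).val *ᵥ (Pi.single j 1) = fun i => algebraMap A K (a i) := by
      rw [Units.val_mul, Units.val_mul, ← Matrix.mulVec_mulVec, ← Matrix.mulVec_mulVec, ha,
        Matrix.mulVec_mulVec, hPP, Matrix.one_mulVec]
    have h4 := congrFun h3 i
    rwa [Matrix.mulVec_single_one] at h4
  choose N hN using h1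
  have hN' : ∀ g, (algebraMap A K).mapMatrix (Matrix.of fun i j => N g j i) =
      (P⁻¹ * m g * P).val := by
    intro g
    ext i j
    rw [hN g j i]
    rfl
  have hinjM : Function.Injective
      ((algebraMap A K).mapMatrix : Matrix (Fin 2) (Fin 2) A →+* Matrix (Fin 2) (Fin 2) K) := by
    intro X Y h
    ext i j
    exact hinj (congrFun (congrFun h i) j)
  have hmul : ∀ g h, (Matrix.of fun i j => N g j i) * (Matrix.of fun i j => N h j i) =
      (Matrix.of fun i j => N (g * h) j i) := by
    intro g h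
    apply hinjM
    rw [map_mul, hN', hN', hN', ← Units.val_mul]
    congr 1
    rw [map_mul]
    group
  have hone : (Matrix.of fun i j => N 1 j i) = 1 := by
    apply hinjM
    rw [hN', map_one, map_one, mul_one, inv_mul_cancel, Units.val_one]
  let α : G →* GL (Fin 2) A := MonoidHom.mk' (fun g =>
    ⟨Matrix.of fun i j => N g j i, Matrix.of fun i j => N g⁻¹ j i,
      by rw [hmul, mul_inv_cancel, hone], by rw [hmul, inv_mul_cancel, hone]⟩)
    (fun g h => Units.ext (hmul g h).symm)
  exact ⟨α, fun g => Units.ext (hN' g)⟩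

omit [IsDomain A] in
/-- the reduction of the matrices of a group which preserves a lattice -/
theorem descend_one {M : Submodule A (Fin 2 → K)} {P : GL (Fin 2) K}
    (hP : ∀ c, c ∈ M ↔ ∃ a : Fin 2 → A, c = P.val *ᵥ (fun i => algebraMap A K (a i)))
    {g : GL (Fin 2) A} {m : GL (Fin 2) K}
    (hg : GeneralLinearGroup.map (algebraMap A K) g = P⁻¹ * m * P) {x : A}
    (hm : ∀ c ∈ M, ∃ c' ∈ M, m.val *ᵥ c - c = x • c') {B : Type} [CommRing B] (φ : A →+* B)
    (hx : φ x = 0) : GeneralLinearGroup.map φ g = 1 := by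
  have hinj : Function.Injective (algebraMap A K) := IsFractionRing.injective A K
  have hPP : P⁻¹.val * P.val = 1 := by rw [← Units.val_mul, inv_mul_cancel, Units.val_one]
  have key : ∀ i j, ∃ a : A, g.val i j - (1 : Matrix (Fin 2) (Fin 2) A) i j = x * a := by
    intro i j
    have h2 : P.val *ᵥ (Pi.single j 1) ∈ M := (hP _).2 ⟨Pi.single j 1, by
      congr 1
      funext i
      by_cases hij : i = j
      · subst hij; simp
      · simp [Pi.single_eq_of_ne hij]⟩
    obtain ⟨c', hc', h3⟩ := hm _ h2
    obtain ⟨a, rfl⟩ := (hP _).1 hc'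
    refine ⟨a i, hinj ?_⟩
    have h4 : (P⁻¹ * m * P).val *ᵥ (Pi.single j 1) - Pi.single j 1 =
        x • (fun i => algebraMap A K (a i)) := by
      have h5 : P⁻¹.val *ᵥ (m.val *ᵥ (P.val *ᵥ Pi.single j 1) - P.val *ᵥ Pi.single j 1) =
          P⁻¹.val *ᵥ (x • P.val *ᵥ fun i => algebraMap A K (a i)) := by rw [h3]
      rw [Matrix.mulVec_sub, Matrix.mulVec_smul] at h5
      simp only [Matrix.mulVec_mulVec, hPP, Matrix.one_mulVec] at h5
      rw [Units.val_mul, Units.val_mul]
      simpa only [Matrix.mul_assoc] using h5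
    have h6 := congrFun h4 i
    rw [Pi.sub_apply, Matrix.mulVec_single_one, ← hg] at h6
    rw [map_sub, map_mul]
    have h7 : (GeneralLinearGroup.map (algebraMap A K) g).val i j = algebraMap A K (g.val i j) :=
      rfl
    have h8 : (Pi.single j 1 : Fin 2 → K) i =
        algebraMap A K ((1 : Matrix (Fin 2) (Fin 2) A) i j) := by
      by_cases hij : i = j
      · subst hij; simp
      · simp [Pi.single_eq_of_ne hij, Matrix.one_apply_ne hij]
    rw [← h7, ← h8]
    have h9 : (x • fun i => algebraMap A K (a i)) i = algebraMap A K x * algebraMap A K (a i) := by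
      rw [Pi.smul_apply, Algebra.smul_def]
    rw [← h9]
    exact h6
  apply Units.ext
  ext i j
  obtain ⟨a, ha⟩ := key i j
  show φ (g.val i j) = (1 : Matrix (Fin 2) (Fin 2) B) i j
  have h1 : g.val i j = (1 : Matrix (Fin 2) (Fin 2) A) i j + x * a := by rw [← ha]; ring
  rw [h1, map_add, map_mul, hx, zero_mul, add_zero]
  by_cases hij : i = j
  · subst hij; simp
  · simp [Matrix.one_apply_ne hij]

end lat

end Pool.Agent.H85.RP
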