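import Pool.Agent.H85.RP.Aff
import Pool.Agent.H34.PT.Bdd
import Pool.Agent.H86.BCP.Jung
import Pool.Graph.R_pool_sql_team_seeded_35f281b4.K7.H87.FJ3.Fin

/-!
# Groups of automorphisms of the plane over a polynomial ring which become affine over the field of
# rational functions
-/

set_option autoImplicit false

namespace Pool.Agent.H85.RP

open Matrix MvPolynomial Pool.Agent.K7.H10.PA WithZero
open Pool.Agent.Y110.FJ (ClosedE)
open Pool.Agent.R684.FP (FbC)
open Pool.Agent.H34.PT (Aff lpart lpart_ker abelian_ext LM_of)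
open Pool.Agent.K7.H87.FJ3 (one_place')

variable {C : ∀ (G : Type) [Group G], Prop}

section inf

variable {L : Type} [Field L]

open Classical in
theorem inf_surj : Function.Surjective (RatFunc.inftyValuation L) := by
  intro x
  by_cases hx : x = 0
  · exact ⟨0, by rw [hx, map_zero]⟩
  · refine ⟨RatFunc.X ^ (log x), ?_⟩
    rw [RatFunc.inftyValuation.X_zpow, exp_log hx]

open Classical in
theorem inf_poly {p : Polynomial L} (hp : p ≠ 0) :
    1 ≤ RatFunc.inftyValuation L (algebraMap (Polynomial L) (RatFunc L) p) := by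
  rw [RatFunc.inftyValuation_apply, RatFunc.inftyValuation.polynomial L hp, ← exp_zero, exp_le_exp]
  exact Int.natCast_nonneg _

open Classical in
theorem inf_const {p : Polynomial L}
    (h1 : RatFunc.inftyValuation L (algebraMap (Polynomial L) (RatFunc L) p) ≤ 1)
    (h2 : Polynomial.evalRingHom 0 p = 0) : p = 0 := by
  by_contra hp
  rw [RatFunc.inftyValuation_apply, RatFunc.inftyValuation.polynomial L hp, ← exp_zero,
    exp_le_exp] at h1
  have h3 : p.natDegree = 0 := by omega
  rw [Polynomial.eq_C_of_natDegree_eq_zero h3] at h2 hp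
  rw [Polynomial.coe_evalRingHom, Polynomial.eval_C] at h2
  exact hp (by rw [h2, Polynomial.C_0])

end inf

/-- polynomials which vanish modulo `X` -/
theorem dvd_of_map {L : Type} [Field L] {p : MvPolynomial (Fin 2) (Polynomial L)}
    (h : MvPolynomial.map (Polynomial.evalRingHom 0) p = 0) :
    ∃ q, p = MvPolynomial.C Polynomial.X * q := by
  have h1 : ∀ m, Polynomial.X ∣ coeff m p := by
    intro m
    have h2 := congrArg (coeff m) h
    rw [coeff_map, coeff_zero, Polynomial.coe_evalRingHom] at h2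
    rw [← sub_zero (Polynomial.X : Polynomial L), ← Polynomial.C_0]
    exact Polynomial.dvd_iff_isRoot.2 h2
  exact (C_dvd_iff_dvd_coeff _ _).2 h1

section

variable {D L : Type} [CommRing D] [Field L] (i : D →+* L)

/-- the map from the polynomial ring over a domain to the rational functions -/
noncomputable def jD : Polynomial D →+* RatFunc L :=
  (algebraMap (Polynomial L) (RatFunc L)).comp (Polynomial.mapRingHom i)

theorem jD_inj (hi : Function.Injective i) : Function.Injective (jD i) := by
  refine (IsFractionRing.injective (Polynomial L) (RatFunc L)).comp ?_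
  exact Polynomial.map_injective _ hi

/-- automorphisms which are the identity at the origin of the line -/
theorem mod_X {s : Aut2 (Polynomial D)} (h : bc (Polynomial.evalRingHom 0) s = 1)
    (p : MvPolynomial (Fin 2) (Polynomial L)) :
    ∃ q, bc (Polynomial.mapRingHom i) s p - p = MvPolynomial.C Polynomial.X * q := by
  apply dvd_of_map
  have h2 : bc (Polynomial.evalRingHom 0) (bc (Polynomial.mapRingHom i) s) = 1 := by
    have h3 : bc (Polynomial.evalRingHom 0) (bc (Polynomial.mapRingHom i) s) =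
        bc i (bc (Polynomial.evalRingHom 0) s) := by
      have h4 : (Polynomial.evalRingHom 0).comp (Polynomial.mapRingHom i) =
          i.comp (Polynomial.evalRingHom 0) := by
        apply RingHom.ext
        intro q
        show Polynomial.eval 0 (Polynomial.map i q) = i (Polynomial.eval 0 q)
        rw [Polynomial.eval_map, ← Polynomial.eval₂_at_apply, map_zero]
      rw [bc_bc, bc_bc, h4]
    rw [h3, h, map_one]
  have h5 : MvPolynomial.map (Polynomial.evalRingHom (0 : L))
      (bc (Polynomial.mapRingHom i) s p) = MvPolynomial.map (Polynomial.evalRingHom 0) p := by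
    rw [← bcH_map]
    have h6 : bcH (Polynomial.evalRingHom 0) (bc (Polynomial.mapRingHom i) s)
        (MvPolynomial.map (Polynomial.evalRingHom 0) p) =
        bc (Polynomial.evalRingHom 0) (bc (Polynomial.mapRingHom i) s)
          (MvPolynomial.map (Polynomial.evalRingHom 0) p) := rfl
    rw [h6, h2]
    rfl
  rw [map_sub, h5, sub_self]

/-- the pairs of the linear part and the value at the origin -/
theorem pair_mem (hC : ClosedE C) (hFb : FbC C)
    (hS : ∀ (S : Type) [Group S], Group.IsSolvable S → C S) {H : Type} [Group H] (hH : C H)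
    {R : Type} [Group R] (g : Aut2 (RatFunc L)) (m : R →* GL (Fin 2) (RatFunc L)) (β : R →* H)
    (hmβ : ∀ r, m r = 1 → β r = 1 → r = 1)
    (h1 : ∀ r, ∀ c ∈ lt (Polynomial L) g, (m r).val *ᵥ c ∈ lt (Polynomial L) g)
    (h2 : ∀ r, β r = 1 → ∀ c ∈ lt (Polynomial L) g, ∃ c' ∈ lt (Polynomial L) g,
      (m r).val *ᵥ c - c = (Polynomial.X : Polynomial L) • c') : C R := by
  classical
  obtain ⟨P, hP⟩ := lattice (lt (Polynomial L) g) (lt_fg g) (lt_span g)
  obtain ⟨α, hα⟩ := descend hP m h1
  refine one_place' hC hFb hS (RatFunc.inftyValuation L) inf_surj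
    (algebraMap (Polynomial L) (RatFunc L)) (IsFractionRing.injective _ _)
    (fun p hp => inf_poly hp)
    (Polynomial.evalRingHom 0) (fun p h1 h2 => inf_const h1 h2) α β ?_ ?_ hH
  · intro r h3 h4
    refine hmβ r ?_ h4
    have h5 : P⁻¹ * m r * P = 1 := by rw [← hα, h3, map_one]
    have h6 : m r = P * (P⁻¹ * m r * P) * P⁻¹ := by group
    rw [h6, h5, mul_one, mul_inv_cancel]
  · intro r h3
    refine descend_one hP (hα r) (h2 r h3) _ ?_
    rw [Polynomial.coe_evalRingHom, Polynomial.eval_X]

/-- **the stabilizers of affine type** -/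
theorem aff_stab (hC : ClosedE C) (hFb : FbC C)
    (hS : ∀ (S : Type) [Group S], Group.IsSolvable S → C S) (hi : Function.Injective i)
    (hD : C (Aut2 D)) {S : Type} [Group S] (a : S →* Aut2 (Polynomial D))
    (ha : Function.Injective a) (g : Aut2 (RatFunc L))
    (hg : ∀ s, g⁻¹ * bc (jD i) (a s) * g ∈ Aff (RatFunc L)) : C S := by
  have ha1 : ∀ s, bc (algebraMap (Polynomial L) (RatFunc L)) (bc (Polynomial.mapRingHom i) (a s)) =
      bc (jD i) (a s) := fun s => bc_bc _ _ _
  have hmul : ∀ s t, g⁻¹ * bc (jD i) (a (s * t)) * g =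
      (g⁻¹ * bc (jD i) (a s) * g) * (g⁻¹ * bc (jD i) (a t) * g) := by
    intro s t
    rw [map_mul, map_mul]
    group
  obtain ⟨af, haf⟩ : ∃ af : S →* Aff (RatFunc L),
      ∀ s, (af s : Aut2 (RatFunc L)) = g⁻¹ * bc (jD i) (a s) * g :=
    ⟨MonoidHom.mk' (fun s => ⟨g⁻¹ * bc (jD i) (a s) * g, hg s⟩)
      (fun s t => Subtype.ext (hmul s t)), fun s => rfl⟩
  obtain ⟨m, hmdef⟩ : ∃ m : S →* GL (Fin 2) (RatFunc L), m = (lpart (RatFunc L)).comp af :=
    ⟨_, rfl⟩
  obtain ⟨β, hβ⟩ : ∃ β : S →* Aut2 D, β = (bc (Polynomial.evalRingHom 0)).comp a := ⟨_, rfl⟩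
  have hm : ∀ s, ∃ b : Fin 2 → RatFunc L, ∀ k,
      (g⁻¹ * bc (algebraMap (Polynomial L) (RatFunc L)) (bc (Polynomial.mapRingHom i) (a s)) * g)
        (X k) = ∑ j, MvPolynomial.C ((m s).val j k) * X j + MvPolynomial.C (b k) := by
    intro s
    obtain ⟨u, b, hub⟩ := hg s
    refine ⟨b, fun k => ?_⟩
    have h1 : (m s).val = u.val := by
      have h2 : (m s).val = LM (af s : Aut2 (RatFunc L)) := by rw [hmdef]; rfl
      rw [h2, haf, LM_of hub]
    rw [ha1, hub, h1]
  have hR : C (m.prod β).range := by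
    refine pair_mem hC hFb hS hD g ((MonoidHom.fst _ _).comp (m.prod β).range.subtype)
      ((MonoidHom.snd _ _).comp (m.prod β).range.subtype) ?_ ?_ ?_
    · intro r h1 h2
      exact Subtype.ext (Prod.ext h1 h2)
    · rintro ⟨_, s, rfl⟩ c hc
      obtain ⟨b, hb⟩ := hm s
      exact lt_pres hb hc
    · rintro ⟨_, s, rfl⟩ h1 c hc
      obtain ⟨b, hb⟩ := hm s
      have h2 : bc (Polynomial.evalRingHom 0) (a s) = 1 := by
        have h3 : β s = 1 := h1
        rw [hβ] at h3
        exact h3
      exact lt_mod hb Polynomial.X_ne_zero (mod_X i h2) hc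
  refine abelian_ext hC hS (m.prod β).rangeRestrict (m.prod β).rangeRestrict_surjective hR ?_
  have key : ∀ s, (m.prod β).rangeRestrict s = 1 → ∃ b, g⁻¹ * bc (jD i) (a s) * g = tr b := by
    intro s hs
    have h1 : m.prod β s = 1 := congrArg Subtype.val hs
    have h2 : m s = 1 := congrArg Prod.fst h1
    rw [hmdef] at h2
    obtain ⟨b, hb⟩ := lpart_ker h2
    exact ⟨b, by rw [← haf, hb]⟩
  intro s t hs ht
  obtain ⟨b, hb⟩ := key s hs
  obtain ⟨b', hb'⟩ := key t ht
  apply ha
  apply bc_injective (jD_inj i hi)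
  have h1 : g⁻¹ * bc (jD i) (a (s * t)) * g = g⁻¹ * bc (jD i) (a (t * s)) * g := by
    rw [hmul, hmul, hb, hb', tr_mul, tr_mul, add_comm]
  exact mul_left_cancel (mul_right_cancel h1)

end

end Pool.Agent.H85.RP
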