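import Pool.Agent.H85.RP.Stab

/-!
# One more variable
-/

set_option autoImplicit false

namespace Pool.Agent.H85.RP

open Matrix MvPolynomial Pool.Agent.K7.H10.PA
open Pool.Agent.Y110.FJ (ClosedE)
open Pool.Agent.R684.FP (FbC)
open Pool.Agent.H34.PT

variable {C : ∀ (G : Type) [Group G], Prop}

/-- a subgroup and its image -/
theorem map_mem (hC : ClosedE C) {G H : Type} [Group G] [Group H] (j : G →* H)
    (hj : Function.Injective j) (S : Subgroup G) (h : C S) : C (S.map j) :=
  hC.base.of_injective _ _ (S.equivMapOfInjective j hj).symm.toMonoidHom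
    (S.equivMapOfInjective j hj).symm.injective h

/-- **groups of automorphisms of the plane over a field of characteristic zero** are in the class if
their subgroups which are conjugate to groups of affine automorphisms are -/
theorem plane_sub (hC : ClosedE C) (hA : AcylClosed C)
    (hS : ∀ (S : Type) [Group S], Group.IsSolvable S → C S) {K : Type} [Field K] [CharZero K]
    {G : Type} [Group G] (j : G →* Aut2 K) (hj : Function.Injective j)
    (hst : ∀ (S : Subgroup G) (g : Aut2 K), (∀ s ∈ S, g⁻¹ * j s * g ∈ Aff K) → C S) : C G := by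
  refine Q30.FJ.of_fg hC.base G fun s => ?_
  obtain ⟨H₀, hH₀⟩ : ∃ H, H = Subgroup.closure (s : Set G) := ⟨_, rfl⟩
  rw [← hH₀]
  let j' : G →* Tame K := j.codRestrict (Tame K) fun g => by
    rw [Pool.Agent.H86.BCP.jung]
    trivial
  have hj' : Function.Injective j' := fun a b h => hj (congrArg Subtype.val h)
  obtain ⟨H, hH⟩ : ∃ H, H = H₀.map j' := ⟨_, rfl⟩
  have hFG : H.FG := by
    classical
    exact ⟨s.image j', by rw [hH, hH₀, MonoidHom.map_closure, Finset.coe_image]⟩
  suffices hC' : C H by
    refine hC.base.of_injective _ _ ((H₀.equivMapOfInjective j' hj').toMonoidHom)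
      (H₀.equivMapOfInjective j' hj').injective ?_
    rwa [← hH]
  obtain ⟨n, hn⟩ := bounded_stab H hFG
  have hT := (deg K).treeAct
  have hE : C (Tri K) := hS _ tri_solvable
  refine hA H (Vt (AT K) (ET K)) (cg (AT K) (ET K)) 7 n
    ((Group.fg_iff_subgroup_fg H).2 hFG) hT.isTree (fun g => hT.adj (g : Tame K))
    (fun g => hT.noInv (g : Tame K)) hn ?_
  rintro (x | x)
  · obtain ⟨g, rfl⟩ := QuotientGroup.mk_surjective x
    let S : Subgroup G := (Aff K).comap ((MulAut.conj (g : Aut2 K)⁻¹).toMonoidHom.comp j)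
    have hmem : ∀ s, s ∈ S ↔ (g : Aut2 K)⁻¹ * j s * (g : Aut2 K) ∈ Aff K := by
      intro s
      show (g : Aut2 K)⁻¹ * j s * ((g : Aut2 K)⁻¹)⁻¹ ∈ Aff K ↔ _
      rw [inv_inv]
    have h1 : C S := hst S g fun s hs => (hmem s).1 hs
    have h2 := map_mem hC j' hj' S h1
    refine hC.base.of_injective _ _ (MonoidHom.mk' (fun u : MulAction.stabilizer H
      (Sum.inl (g : Tame K ⧸ AT K) : Vt (AT K) (ET K)) =>
      (⟨(u.1 : Tame K), ?_⟩ : S.map j')) ?_) ?_ h2
    · obtain ⟨⟨u, hu⟩, hu2⟩ := u
      have hu3 : u ∈ H₀.map j' := by rw [← hH]; exact hu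
      obtain ⟨s, hs, hsu⟩ := hu3
      refine ⟨s, ?_, hsu⟩
      show s ∈ S
      rw [hmem]
      have h3 : (Sum.inl ((u * g : Tame K) : Tame K ⧸ AT K) : Vt (AT K) (ET K)) =
        Sum.inl (g : Tame K ⧸ AT K) := hu2
      have h4 := Sum.inl.inj h3
      rw [eq_comm, QuotientGroup.eq] at h4
      have h5 : ((g⁻¹ * (u * g) : Tame K) : Aut2 K) ∈ Aff K := h4
      have h6 : ((g⁻¹ * (u * g) : Tame K) : Aut2 K) = (g : Aut2 K)⁻¹ * j s * (g : Aut2 K) := by
        rw [← hsu, mul_assoc]
        rfl
      rwa [h6] at h5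
    · intro a b
      rfl
    · intro a b hab
      have h3 : ((a.1 : H) : Tame K) = ((b.1 : H) : Tame K) :=
        congrArg (fun z : S.map j' => (z : Tame K)) hab
      exact Subtype.ext (Subtype.ext h3)
  · obtain ⟨g, rfl⟩ := QuotientGroup.mk_surjective x
    have h1 := stab_inr (g := g) hE hC
    refine hC.base.of_injective _ _ (MonoidHom.mk' (fun u : MulAction.stabilizer H
      (Sum.inr (g : Tame K ⧸ ET K) : Vt (AT K) (ET K)) =>
      (⟨(u.1 : Tame K), u.2⟩ : MulAction.stabilizer (Tame K)
        (Sum.inr (g : Tame K ⧸ ET K) : Vt (AT K) (ET K)))) (fun _ _ => rfl)) ?_ h1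
    intro a b hab
    have h2 := congrArg Subtype.val hab
    exact Subtype.ext (Subtype.ext h2)

/-- **one more variable** -/
theorem step (hC : ClosedE C) (hA : AcylClosed C) (hFb : FbC C)
    (hS : ∀ (S : Type) [Group S], Group.IsSolvable S → C S) {D : Type} [CommRing D] [IsDomain D]
    [CharZero D] (hD : C (Aut2 D)) : C (Aut2 (Polynomial D)) := by
  have hi : Function.Injective (algebraMap D (FractionRing D)) := IsFractionRing.injective D _
  have hz : CharZero (FractionRing D) := (RingHom.charZero_iff hi).1 inferInstance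
  have hz' : CharZero (RatFunc (FractionRing D)) :=
    (RingHom.charZero_iff (algebraMap (FractionRing D) (RatFunc (FractionRing D))).injective).1
      inferInstance
  refine plane_sub hC hA hS (bc (jD (algebraMap D (FractionRing D))))
    (bc_injective (jD_inj _ hi)) ?_
  intro S g hSg
  exact aff_stab (algebraMap D (FractionRing D)) hC hFb hS hi hD S.subtype S.subtype_injective g
    (fun s => hSg s s.2)

end Pool.Agent.H85.RP
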